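import Pool.Agent.K9h53.P5.Mult3

set_option autoImplicit false

/-!
# How large is the least `k` with `p_{k n} ^ 2 - 2` prime?

For almost all `n` it is larger than `(log n) ^ (1 - ε)`, even without the condition that `2 k + 1` be prime.
-/

namespace Pool.Agent.Results.MP_c971ef_nt.SizeOfMultiplier

open Filter

/-- the `m`-th prime, `p 1 = 2` -/
noncomputable def p (m : ℕ) : ℕ := Nat.nth Nat.Prime (m - 1)

/-- the `n ≤ N` for which there is `k` with `1 ≤ k ≤ K` and `p_{k n} ^ 2 - 2` prime -/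
def SmallMultiplier (N : ℕ) (K : ℝ) : Set ℕ :=
  {n | 1 ≤ n ∧ n ≤ N ∧ ∃ k : ℕ, 1 ≤ k ∧ (k : ℝ) ≤ K ∧ (p (k * n) ^ 2 - 2).Prime}

/-- **The size of the multiplier.** -/
theorem result (ε : ℝ) (hε : 0 < ε) (hε1 : ε < 1) : ∃ C : ℝ, 0 < C ∧ ∀ N : ℕ, 3 ≤ N →
    ((SmallMultiplier N (Real.log N ^ (1 - ε))).ncard : ℝ) ≤ C * N / Real.log N ^ (ε / 2) :=
  Pool.Agent.K9h53.P5.main3 ε hε hε1

end Pool.Agent.Results.MP_c971ef_nt.SizeOfMultiplier
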